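import Pool.Agent.V5helper38.EP.Stm

/-!
# Project EP: truth of the abbreviations
-/

set_option autoImplicit false

namespace Pool.Agent.V5helper38.EP

section
variable {A W : Type} (M : Model A W) (D : Set W) (w : W)

theorem sat_imp (φ ψ : Fm A) : sat M (imp φ ψ) D w ↔ (sat M φ D w → sat M ψ D w) := by
  simp only [imp, sat]; tauto

theorem sat_or (φ ψ : Fm A) : sat M (or' φ ψ) D w ↔ (sat M φ D w ∨ sat M ψ D w) := by
  simp only [or', sat]; tauto

theorem sat_dia (a : A) (φ : Fm A) :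
    sat M (dia a φ) D w ↔ ∃ v ∈ D, (M.R a).r w v ∧ sat M φ D v := by
  simp only [dia, sat]; push Not; rfl

theorem sat_top : sat M top' D w := by simp only [top', sat]; tauto

theorem sat_conj (l : List (Fm A)) : sat M (conj l) D w ↔ ∀ φ ∈ l, sat M φ D w := by
  induction l with
  | nil => simp [conj, sat_top]
  | cons a l ih => simp [conj, sat, ih]

theorem sat_disj (l : List (Fm A)) : sat M (disj l) D w ↔ ∃ φ ∈ l, sat M φ D w := by
  induction l with
  | nil => simp [disj, sat, top']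
  | cons a l ih => simp [disj, sat_or, ih]

theorem sat_sp : sat M sp D w ↔ (w ∈ M.V 1 ∨ w ∈ M.V 9) := by
  simp only [sp, sat_or, sS, sP, sat]
end

section
variable {k : ℕ} {W : Type} (M : Model (Fin (k + 2)) W) (D : Set W) (w : W)

theorem sat_see (r : ℕ) : sat M (see r) D w ↔ ∃ v ∈ D, (M.R 0).r w v ∧ v ∈ M.V (8 * r + 5) := by
  simp only [see, sat_dia, cell, sat]

theorem sat_alpha (K : ℕ) : sat M (alpha K) D w ↔ ∀ r < K, ∀ i < 4, w ∈ M.V (8 * r + 4 + i % 4) →
    ∃ v ∈ D, (M.R (ag i)).r w v ∧ v ∈ M.V (8 * r + 4 + (i + 1) % 4) := by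
  simp only [alpha, sat_conj, List.mem_flatMap, List.mem_map, List.mem_range]
  constructor
  · intro h r hr i hi hw
    have := h _ ⟨r, hr, i, hi, rfl⟩
    rw [sat_imp, sat_dia] at this
    exact this hw
  · rintro h _ ⟨r, hr, i, hi, rfl⟩
    rw [sat_imp, sat_dia]
    exact h r hr i hi

theorem sat_C (φ : Fm (Fin (k + 2))) : sat M (C φ) D w ↔ ∀ v, Relation.TransGen
      (fun x y => x ∈ D ∧ y ∈ D ∧ ((M.R 0).r x y ∨ (M.R 1).r x y)) w v → sat M φ D v := by
  simp only [C, sat]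
  have : (fun x y => x ∈ D ∧ y ∈ D ∧ ∃ a ∈ ({0, 1} : Finset (Fin (k + 2))), (M.R a).r x y) =
      (fun x y => x ∈ D ∧ y ∈ D ∧ ((M.R 0).r x y ∨ (M.R 1).r x y)) := by
    funext x y
    simp
  rw [this]
end

end Pool.Agent.V5helper38.EP
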