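import Pool.Agent.V5helper38.EP.Bas

/-!
# Project EP: soundness
-/

set_option autoImplicit false

namespace Pool.Agent.V5helper38.EP
namespace Snd

open Relation
open Pool.Agent.Helper707.Flat (Ins step sx)

variable {k K : ℕ} {P : List Ins} {x : ℕ} {W : Type} {M : Model (Fin (k + 2)) W} {w : W}

/-- stages -/
def D (M : Model (Fin (k + 2)) W) (K n : ℕ) : Set W :=
  (fun E : Set W => {v | v ∈ E ∧ sat M (alpha K) E v})^[n] Set.univ

theorem D_zero : D M K 0 = Set.univ := rfl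

theorem D_succ (n : ℕ) :
    D M K (n + 1) = {v | v ∈ D M K n ∧ sat M (alpha K) (D M K n) v} := by
  simp only [D, Function.iterate_succ_apply']

/-- what one sees -/
def Sees (M : Model (Fin (k + 2)) W) (K n r : ℕ) (v : W) : Prop :=
  ∃ u ∈ D M K n, (M.R 0).r v u ∧ u ∈ M.V (8 * r + 5)

theorem Sees.anti {n r : ℕ} {v : W} (h : Sees M K (n + 1) r v) : Sees M K n r v := by
  obtain ⟨u, hu, h⟩ := h
  rw [D_succ] at hu
  exact ⟨u, hu.1, h⟩

theorem Sees.mono {n m r : ℕ} {v : W} (hnm : n ≤ m) (h : Sees M K m r v) : Sees M K n r v := by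
  induction hnm with
  | refl => exact h
  | step _ ih => exact ih h.anti

theorem sees_iff {n r : ℕ} {v : W} : sat M (see r) (D M K n) v ↔ Sees M K n r v := by
  rw [sat_see]; rfl

theorem sees_iff0 {r : ℕ} {v : W} : sat M (see r) Set.univ v ↔ Sees M K 0 r v :=
  sees_iff (n := 0)

/-- spine worlds -/
def Sp (M : Model (Fin (k + 2)) W) (v : W) : Prop := v ∈ M.V 1 ∨ v ∈ M.V 9

/-- steps along the spine -/
def Esp (M : Model (Fin (k + 2)) W) (x y : W) : Prop :=
  Sp M x ∧ Sp M y ∧ ((M.R 0).r x y ∨ (M.R 1).r x y)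

/-- static conditions at a world -/
structure Sta (M : Model (Fin (k + 2)) W) (P : List Ins) (K : ℕ) (v : W) : Prop where
  excl : ∀ q < K, ∀ q' < K, v ∈ M.V (8 * q) → v ∈ M.V (8 * q') → q = q'
  nocell : ∀ r < K, ∀ i < 4, Sp M v → v ∉ M.V (8 * r + 4 + i % 4)
  st0 : ∀ q < K, Sp M v → v ∈ M.V (8 * q) → ∀ u, (M.R 0).r v u → Sp M u → u ∈ M.V (8 * q)
  stP : v ∈ M.V 9 → ∃ q < P.length, v ∈ M.V (8 * q)
  sS : v ∈ M.V 1 → v ∈ M.V 17 ∨ ∃ z, (M.R 1).r v z ∧ z ∈ M.V 9
  ini1 : v ∈ M.V 17 → ∀ u, (M.R 1).r v u → u ∈ M.V 1 → u ∈ M.V 17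
  sP : v ∈ M.V 9 → ∃ z, (M.R 1).r v z ∧ z ∈ M.V 1
  zrP : ∀ r < K, v ∈ M.V 9 → (v ∈ M.V (8 * r + 2) → ¬ Sees M K 0 r v) ∧
    (v ∉ M.V (8 * r + 2) → Sees M K 0 r v)
  stcc : ∀ c ∈ allc (k := k) P, sat M (stc c) Set.univ v
  ini0 : v ∈ M.V 1 → v ∈ M.V 17 → v ∈ M.V 0
  inir : ∀ r < K, r ≠ 0 → v ∈ M.V 1 → v ∈ M.V 17 → ¬ Sees M K 0 r v

theorem sta_of {v : W} (h : sat M (sta P K) Set.univ v) : Sta M P K v := by
  rw [sta, sat_conj] at h
  simp only [List.forall_mem_cons] at h
  obtain ⟨h1, h2, h3, h4, h5, h6, h7, h8, h9, h10, h11, -⟩ := h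
  constructor
  · intro q hq q' hq' hv hv'
    by_contra hne
    rw [sat_conj] at h1
    have := h1 (if q = q' then top' else imp (st q) (.neg (st q'))) (by
      rw [List.mem_flatMap]
      exact ⟨q, List.mem_range.2 hq, List.mem_map.2 ⟨q', List.mem_range.2 hq', rfl⟩⟩)
    rw [if_neg hne, sat_imp] at this
    exact this hv hv'
  · intro r hr i hi hs hv
    rw [sat_conj] at h2
    have := h2 (imp sp (.neg (cell r i))) (by
      rw [List.mem_flatMap]
      exact ⟨r, List.mem_range.2 hr, List.mem_map.2 ⟨i, List.mem_range.2 hi, rfl⟩⟩)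
    rw [sat_imp, sat_sp] at this
    exact this hs hv
  · intro q hq hs hv u hu hsu
    rw [sat_conj] at h3
    have := h3 (imp (.and sp (st q)) (.know 0 (imp sp (st q)))) (List.mem_map.2
      ⟨q, List.mem_range.2 hq, rfl⟩)
    rw [sat_imp] at this
    have h' := this ⟨(sat_sp _ _ _).2 hs, hv⟩ u (Set.mem_univ _) hu
    rw [sat_imp, sat_sp] at h'
    exact h' hsu
  · intro hv
    rw [sat_imp, sat_disj] at h4
    obtain ⟨φ, hφ, h⟩ := h4 hv
    obtain ⟨q, hq, rfl⟩ := List.mem_map.1 hφ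
    exact ⟨q, List.mem_range.1 hq, h⟩
  · intro hv
    rw [sat_imp, sat_or, sat_dia] at h5
    rcases h5 hv with h | ⟨z, -, hz, hz'⟩
    · exact Or.inl h
    · exact Or.inr ⟨z, hz, hz'⟩
  · intro hv u hu hu1
    rw [sat_imp] at h6
    have := h6 hv u (Set.mem_univ _) hu
    rw [sat_imp] at this
    exact this hu1
  · intro hv
    rw [sat_imp, sat_dia] at h7
    obtain ⟨z, -, hz, hz'⟩ := h7 hv
    exact ⟨z, hz, hz'⟩
  · intro r hr hv
    rw [sat_conj] at h8
    have := h8 _ (List.mem_map.2 ⟨r, List.mem_range.2 hr, rfl⟩)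
    rw [sat_imp] at this
    have h' := this hv
    simp only [sat, sat_imp, sees_iff0 (K := K), zr] at h'
    exact h'
  · intro c hc
    rw [sat_conj] at h9
    exact h9 _ (List.mem_map.2 ⟨c, hc, rfl⟩)
  · intro hv hv'
    rw [sat_imp] at h10
    exact h10 ⟨hv, hv'⟩
  · intro r hr hr0 hv hv'
    rw [sat_conj] at h11
    have := h11 _ (List.mem_map.2 ⟨r, List.mem_range.2 hr, rfl⟩)
    simp only [if_neg hr0] at this
    rw [sat_imp] at this
    have h' := this ⟨hv, hv'⟩
    simp only [val, sat, sees_iff0 (K := K)] at h'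
    exact h'

theorem spine {v : W} (hw : Sp M w) (h : ReflTransGen (Esp M) w v) : Sp M v := by
  rcases ReflTransGen.cases_tail h with rfl | ⟨u, _, hu⟩
  · exact hw
  · exact hu.2.1

theorem inD (hw : Sp M w) (hs : ∀ v, ReflTransGen (Esp M) w v → Sta M P K v) {v : W}
    (h : ReflTransGen (Esp M) w v) (n : ℕ) : v ∈ D M K n := by
  induction n with
  | zero => exact Set.mem_univ _
  | succ n ih =>
    rw [D_succ]
    exact ⟨ih, (sat_alpha _ _ _ _).2 fun r hr i hi hv =>
      absurd hv ((hs v h).nocell r hr i hi (spine hw h))⟩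

theorem reach (hw : Sp M w) (hs : ∀ v, ReflTransGen (Esp M) w v → Sta M P K v) {v : W}
    (h : ReflTransGen (Esp M) w v) (n : ℕ) :
    TransGen (fun x y => x ∈ D M K n ∧ y ∈ D M K n ∧ ((M.R 0).r x y ∨ (M.R 1).r x y)) w v := by
  induction h with
  | refl =>
    exact TransGen.single ⟨inD hw hs .refl n, inD hw hs .refl n, Or.inl ((M.R 0).iseqv.refl w)⟩
  | @tail b c hb hbc ih =>
    exact ih.tail ⟨inD hw hs hb n, inD hw hs (hb.tail hbc) n, hbc.2.2⟩

theorem reach0 {v : W} (h : ReflTransGen (Esp M) w v) :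
    TransGen (fun x y => x ∈ (Set.univ : Set W) ∧ y ∈ (Set.univ : Set W) ∧
      ((M.R 0).r x y ∨ (M.R 1).r x y)) w v := by
  induction h with
  | refl => exact TransGen.single ⟨trivial, trivial, Or.inl ((M.R 0).iseqv.refl w)⟩
  | tail hb hbc ih => exact ih.tail ⟨trivial, trivial, hbc.2.2⟩

/-- the hypotheses -/
structure Hyp (M : Model (Fin (k + 2)) W) (P : List Ins) (K x : ℕ) (w : W) : Prop where
  ok : Ok P K
  hw : Sp M w
  sta : ∀ v, ReflTransGen (Esp M) w v → Sta M P K v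
  dyn : ∀ v, ReflTransGen (Esp M) w v → ∀ n, sat M (dyn P K) (D M K n) v
  vl : ∀ v, ReflTransGen (Esp M) w v → v ∈ M.V 1 → v ∈ M.V 17 →
    sat M (val K 0 x) Set.univ v

theorem Hyp.inD (H : Hyp M P K x w) {v : W} (h : ReflTransGen (Esp M) w v) (n : ℕ) :
    v ∈ D M K n := Snd.inD H.hw H.sta h n

/-- the configuration of a spine world -/
def Conf (M : Model (Fin (k + 2)) W) (K : ℕ) (v : W) (c : ℕ × (ℕ → ℕ)) : Prop :=
  c.1 < K ∧ v ∈ M.V (8 * c.1) ∧ (∀ r < K, ∀ n, Sees M K n r v ↔ n < c.2 r) ∧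
    ∀ r, K ≤ r → c.2 r = 0

theorem Conf.uniq {v : W} {c c' : ℕ × (ℕ → ℕ)} (hs : Sta M P K v) (h : Conf M K v c)
    (h' : Conf M K v c') : c = c' := by
  obtain ⟨h1, h2, h3, h4⟩ := h
  obtain ⟨g1, g2, g3, g4⟩ := h'
  refine Prod.ext (hs.excl _ h1 _ g1 h2 g2) (funext fun r => ?_)
  by_cases hr : r < K
  · have := fun n => (h3 r hr n).symm.trans (g3 r hr n)
    have a := this (c.2 r)
    have b := this (c'.2 r)
    omega
  · rw [h4 r (by omega), g4 r (by omega)]

theorem Conf.zero {v u : W} {c : ℕ × (ℕ → ℕ)} (hs : Sta M P K v) (hv : Sp M v) (hu : Sp M u)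
    (h0 : (M.R 0).r v u) (h : Conf M K v c) : Conf M K u c := by
  obtain ⟨h1, h2, h3, h4⟩ := h
  refine ⟨h1, hs.st0 _ h1 hv h2 u h0 hu, fun r hr n => ?_, h4⟩
  rw [← h3 r hr n]
  exact ⟨fun ⟨z, hz, hz0, hzV⟩ => ⟨z, hz, (M.R 0).iseqv.trans h0 hz0, hzV⟩,
    fun ⟨z, hz, hz0, hzV⟩ => ⟨z, hz, (M.R 0).iseqv.trans ((M.R 0).iseqv.symm h0) hz0, hzV⟩⟩

theorem Conf.ex {v : W} {q : ℕ} (hq : q < K) (hv : v ∈ M.V (8 * q))
    (h : ∀ r < K, ∃ m, ∀ n, Sees M K n r v ↔ n < m) : ∃ c, Conf M K v c := by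
  choose! m hm using h
  refine ⟨(q, fun r => if r < K then m r else 0), hq, hv, fun r hr n => ?_, fun r hr => ?_⟩
  · simp only [if_pos hr]
    exact hm r hr n
  · simp only [if_neg (not_lt.2 hr)]

theorem sat_val {v : W} (hD : ∀ n, v ∈ D M K n) (r m n : ℕ)
    (h : sat M (val K r m) (D M K n) v) : ∀ j, Sees M K (n + j) r v ↔ j < m := by
  induction m generalizing n with
  | zero =>
    intro j
    have h' : ¬ Sees M K n r v := by rw [← sees_iff]; exact h
    simp only [Nat.not_lt_zero, iff_false]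
    exact fun hj => h' (hj.mono (by omega))
  | succ m ih =>
    obtain ⟨h1, h2⟩ := h
    rw [sees_iff] at h1
    have h3 := h2 (by have := hD (n + 1); rw [D_succ] at this; exact this.2)
    rw [← D_succ] at h3
    have := ih (n + 1) h3
    intro j
    cases j with
    | zero => simpa using h1
    | succ j =>
      have := this j
      rw [show n + (j + 1) = n + 1 + j by ring, this]
      omega

theorem Conf.init (H : Hyp M P K x w) {v : W} (hv : ReflTransGen (Esp M) w v)
    (h1 : v ∈ M.V 1) (h17 : v ∈ M.V 17) : Conf M K v (0, sx x 0 0) := by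
  have hs := H.sta v hv
  have K0 : 0 < K := by have := H.ok.len; omega
  refine ⟨K0, hs.ini0 h1 h17, fun r hr n => ?_, fun r hr => ?_⟩
  · by_cases h0 : r = 0
    · subst h0
      have := sat_val (H.inD hv) 0 x 0 (H.vl v hv h1 h17) n
      simpa [sx] using this
    · have := hs.inir r hr h0 h1 h17
      have e : sx x 0 0 r = 0 := by simp only [sx, if_neg h0]; split_ifs <;> rfl
      simp only [e, Nat.not_lt_zero, iff_false]
      exact fun h => this (h.mono (Nat.zero_le _))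
  · simp only [sx]
    split_ifs <;> omega

/-! ### The cases -/

theorem same_of {v u : W} {n r : ℕ} (hu : u ∈ D M K n) (h1 : (M.R 1).r v u) (hS : u ∈ M.V 1)
    (h : sat M (same r) (D M K n) v) : Sees M K n r v ↔ Sees M K n r u := by
  obtain ⟨ha, hb⟩ := h
  rw [sat_imp] at ha hb
  constructor
  · intro hv
    have := ha (sees_iff.2 hv) u hu h1
    rw [sat_imp, sees_iff] at this
    exact this hS
  · intro hv
    by_contra hn
    have := hb (fun h => hn (sees_iff.1 h)) u hu h1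
    rw [sat_imp] at this
    exact this hS (sees_iff.2 hv)

theorem alpha_of {v : W} (hD : ∀ n, v ∈ D M K n) (n : ℕ) :
    sat M (alpha K) (D M K n) v := by
  have := hD (n + 1)
  rw [D_succ] at this
  exact this.2

theorem up_of {v u : W} {n r : ℕ} (hv : ∀ n, v ∈ D M K n) (hu : ∀ n, u ∈ D M K n)
    (h1 : (M.R 1).r v u) (hS : u ∈ M.V 1)
    (h : sat M (up K r) (D M K n) v) : Sees M K n r v ↔ Sees M K (n + 1) r u := by
  obtain ⟨ha, hb⟩ := h
  rw [sat_imp] at ha hb
  constructor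
  · intro h'
    have := ha (sees_iff.2 h') (alpha_of hv n)
    rw [← D_succ] at this
    have := this u (hu _) h1
    rw [sat_imp, sees_iff] at this
    exact this hS
  · intro h'
    by_contra hn
    have := hb (fun h => hn (sees_iff.1 h)) (alpha_of hv n)
    rw [← D_succ] at this
    have := this u (hu _) h1
    rw [sat_imp] at this
    exact this hS (sees_iff.2 h')

theorem dn_of {v u : W} {n r : ℕ} (hv : ∀ n, v ∈ D M K n) (hu : ∀ n, u ∈ D M K n)
    (h1 : (M.R 1).r v u) (hS : u ∈ M.V 1)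
    (h : sat M (dn K r) (D M K n) v) : Sees M K (n + 1) r v ↔ Sees M K n r u := by
  obtain ⟨ha, hb⟩ := h
  rw [sat_imp] at ha hb
  have key : sat M (.ann (alpha K) (see r)) (D M K n) v ↔ Sees M K (n + 1) r v := by
    constructor
    · intro h
      have := h (alpha_of hv n)
      rwa [← D_succ, sees_iff] at this
    · intro h _
      rwa [← D_succ, sees_iff]
  constructor
  · intro h'
    have := ha (key.2 h') u (hu _) h1
    rw [sat_imp, sees_iff] at this
    exact this hS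
  · intro h'
    by_contra hn
    have := hb (fun h => hn (key.1 h)) u (hu _) h1
    rw [sat_imp] at this
    exact this hS (sees_iff.2 h')

/-- the meaning of a move -/
def Mv (M : Model (Fin (k + 2)) W) (K : ℕ) (v u : W) (m : Option (ℕ × Bool)) (r : ℕ) : Prop :=
  (m = some (r, true) → Sees M K 0 r u ∧ ∀ n, Sees M K n r v ↔ Sees M K (n + 1) r u) ∧
  (m = some (r, false) → ∀ n, Sees M K (n + 1) r v ↔ Sees M K n r u) ∧
  (m ≠ some (r, true) → m ≠ some (r, false) → ∀ n, Sees M K n r v ↔ Sees M K n r u)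

theorem case_of (H : Hyp M P K x w) {v u : W} (hv : ReflTransGen (Esp M) w v)
    (hu : ReflTransGen (Esp M) w u) (h9 : v ∈ M.V 9) (hS : u ∈ M.V 1) (h1 : (M.R 1).r v u)
    {c : Fm (Fin (k + 2)) × ℕ × Option (ℕ × Bool)} (hc : c ∈ allc P)
    (hcond : ∀ E, sat M c.1 E v) :
    u ∈ M.V (8 * c.2.1) ∧ ∀ r < K, Mv M K v u c.2.2 r := by
  have hs := (H.sta v hv).stcc c hc
  obtain ⟨hs1, hs2⟩ := hs
  constructor
  · rw [sat_imp] at hs1
    have := hs1 ⟨h9, hcond _⟩ u (Set.mem_univ _) h1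
    rw [sat_imp] at this
    exact this hS
  · intro r hr
    have hd : ∀ n, sat M (mv K c.2.2 r) (D M K n) v := by
      intro n
      have := H.dyn v hv n
      rw [dyn, sat_conj] at this
      have := this _ (List.mem_map.2 ⟨c, hc, rfl⟩)
      rw [dyc, sat_imp] at this
      have := this ⟨h9, hcond _⟩
      rw [sat_conj] at this
      exact this _ (List.mem_map.2 ⟨r, List.mem_range.2 hr, rfl⟩)
    refine ⟨fun e => ⟨?_, fun n => ?_⟩, fun e n => ?_, fun e e' n => ?_⟩
    · rw [e] at hs2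
      simp only [] at hs2
      rw [sat_imp] at hs2
      have := hs2 ⟨h9, hcond _⟩ u (Set.mem_univ _) h1
      rw [sat_imp, sees_iff0 (K := K)] at this
      exact this hS
    · have := hd n
      rw [mv, if_pos e] at this
      exact up_of (H.inD hv) (H.inD hu) h1 hS this
    · have := hd n
      rw [mv, if_neg (by rw [e]; simp), if_pos e] at this
      exact dn_of (H.inD hv) (H.inD hu) h1 hS this
    · have := hd n
      rw [mv, if_neg e, if_neg e'] at this
      exact same_of (H.inD hu n) h1 hS this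

theorem mem_allc {q : ℕ} {a : Ins} (h : P[q]? = some a)
    {c : Fm (Fin (k + 2)) × ℕ × Option (ℕ × Bool)} (hc : c ∈ cases' q (some a)) :
    c ∈ allc P := by
  rw [allc, List.mem_flatMap]
  refine ⟨q, List.mem_range.2 ?_, by rw [h]; exact hc⟩
  by_contra hq
  rw [List.getElem?_eq_none (by omega)] at h
  simp at h

/-- effect of a move -/
def app : Option (ℕ × Bool) → (ℕ → ℕ) → ℕ → ℕ
  | none, σ => σ
  | some (r, true), σ => Function.update σ r (σ r + 1)
  | some (r, false), σ => Function.update σ r (σ r - 1)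

theorem case_all (H : Hyp M P K x w) {v u : W} (hv : ReflTransGen (Esp M) w v)
    (hu : ReflTransGen (Esp M) w u) (h9 : v ∈ M.V 9) (hS : u ∈ M.V 1) (h1 : (M.R 1).r v u) :
    ∃ q t m, q < K ∧ v ∈ M.V (8 * q) ∧ t < K ∧ u ∈ M.V (8 * t) ∧ (∀ r < K, Mv M K v u m r) ∧
      (∀ r b, m = some (r, b) → r < K) ∧ (∀ r, m = some (r, false) → Sees M K 0 r v) ∧
      ∀ σ : ℕ → ℕ, (∀ r < K, ∀ n, Sees M K n r v ↔ n < σ r) → step P (q, σ) = (t, app m σ) := by
  obtain ⟨q, hq, hvq⟩ := (H.sta v hv).stP h9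
  obtain ⟨a, ha⟩ : ∃ a, P[q]? = some a := ⟨P[q], List.getElem?_eq_getElem hq⟩
  have hbd : bd K a := H.ok.ins a (List.mem_of_getElem? ha)
  have hqK : q < K := hq.trans H.ok.len
  cases a with
  | inc r t =>
    obtain ⟨b1, b2⟩ := hbd
    obtain ⟨c1, c2⟩ := case_of H hv hu h9 hS h1 (c := (st q, t, some (r, true)))
      (mem_allc ha (by simp [cases'])) (fun E => hvq)
    refine ⟨q, t, some (r, true), hqK, hvq, b2, c1, c2, ?_, ?_, fun σ _ => ?_⟩
    · rintro r' b h
      simp only [Option.some.injEq, Prod.mk.injEq] at h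
      omega
    · rintro r' h
      simp at h
    · simp [step, ha, app]
  | dec r t t' =>
    obtain ⟨b1, b2, b3⟩ := hbd
    have hz := (H.sta v hv).zrP r b1 h9
    by_cases hzr : v ∈ M.V (8 * r + 2)
    · obtain ⟨c1, c2⟩ := case_of H hv hu h9 hS h1 (c := (.and (st q) (zr r), t', none))
        (mem_allc ha (by simp [cases'])) (fun E => ⟨hvq, hzr⟩)
      refine ⟨q, t', none, hqK, hvq, b3, c1, c2, ?_, ?_, fun σ hσ => ?_⟩
      · rintro r' b h
        simp at h
      · rintro r' h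
        simp at h
      · have : σ r = 0 := by
          have := hz.1 hzr
          rw [hσ r b1] at this
          omega
        simp [step, ha, app, this]
    · obtain ⟨c1, c2⟩ := case_of H hv hu h9 hS h1
        (c := (.and (st q) (.neg (zr r)), t, some (r, false)))
        (mem_allc ha (by simp [cases'])) (fun E => ⟨hvq, hzr⟩)
      refine ⟨q, t, some (r, false), hqK, hvq, b2, c1, c2, ?_, ?_, fun σ hσ => ?_⟩
      · rintro r' b h
        simp only [Option.some.injEq, Prod.mk.injEq] at h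
        omega
      · rintro r' h
        simp only [Option.some.injEq, Prod.mk.injEq, and_true] at h
        rw [← h]
        exact hz.2 hzr
      · have : σ r ≠ 0 := by
          have := hz.2 hzr
          rw [hσ r b1] at this
          omega
        simp [step, ha, app, this]
  | jmp t =>
    obtain ⟨c1, c2⟩ := case_of H hv hu h9 hS h1 (c := (st q, t, none))
      (mem_allc ha (by simp [cases'])) (fun E => hvq)
    refine ⟨q, t, none, hqK, hvq, hbd, c1, c2, ?_, ?_, fun σ _ => ?_⟩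
    · rintro r' b h
      simp at h
    · rintro r' h
      simp at h
    · simp [step, ha, app]

theorem Conf.fwd (H : Hyp M P K x w) {v u : W} (hv : ReflTransGen (Esp M) w v)
    (hu : ReflTransGen (Esp M) w u) (h9 : v ∈ M.V 9) (hS : u ∈ M.V 1) (h1 : (M.R 1).r v u)
    {c : ℕ × (ℕ → ℕ)} (h : Conf M K v c) : Conf M K u (step P c) := by
  obtain ⟨q', t, m, hqK, hvq, htK, hut, hm, hmK, hm0, hstep⟩ := case_all H hv hu h9 hS h1
  obtain ⟨q, σ⟩ := c
  obtain ⟨g1, g2, g3, g4⟩ := h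
  simp only at g1 g2 g3 g4
  have e : q = q' := (H.sta v hv).excl q g1 q' hqK g2 hvq
  subst e
  rw [hstep σ g3]
  refine ⟨htK, hut, fun r hr n => ?_, fun r hr => ?_⟩
  · obtain ⟨m1, m2, m3⟩ := hm r hr
    by_cases e1 : m = some (r, true)
    · subst e1
      obtain ⟨m4, m5⟩ := m1 rfl
      simp only [app, Function.update_self]
      cases n with
      | zero => simp [m4]
      | succ n =>
        rw [← m5 n, g3 r hr n]
        omega
    by_cases e2 : m = some (r, false)
    · subst e2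
      simp only [app, Function.update_self]
      rw [← m2 rfl n, g3 r hr (n + 1)]
      omega
    · rw [← m3 e1 e2 n, g3 r hr n]
      have : app m σ r = σ r := by
        rcases m with _ | ⟨r', b⟩
        · rfl
        · have hne : r ≠ r' := by
            rintro rfl
            cases b <;> simp_all
          cases b <;> simp [app, Function.update_of_ne hne]
      simp only [this]
  · have : app m σ r = σ r := by
      rcases m with _ | ⟨r', b⟩
      · rfl
      · have hne : r ≠ r' := by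
          have := hmK r' b rfl
          omega
        cases b <;> simp [app, Function.update_of_ne hne]
    simp only [this]
    exact g4 r hr

theorem Conf.bwd (H : Hyp M P K x w) {v u : W} (hv : ReflTransGen (Esp M) w v)
    (hu : ReflTransGen (Esp M) w u) (h9 : v ∈ M.V 9) (hS : u ∈ M.V 1) (h1 : (M.R 1).r v u)
    {c : ℕ × (ℕ → ℕ)} (h : Conf M K u c) : ∃ c', Conf M K v c' ∧ step P c' = c := by
  have : ∃ c', Conf M K v c' := by
    obtain ⟨q, t, m, hqK, hvq, htK, hut, hm, hmK, hm0, -⟩ := case_all H hv hu h9 hS h1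
    obtain ⟨g1, g2, g3, g4⟩ := h
    refine Conf.ex hqK hvq fun r hr => ?_
    obtain ⟨m1, m2, m3⟩ := hm r hr
    by_cases e1 : m = some (r, true)
    · obtain ⟨m4, m5⟩ := m1 e1
      refine ⟨c.2 r - 1, fun n => ?_⟩
      rw [m5 n, g3 r hr (n + 1)]
      omega
    by_cases e2 : m = some (r, false)
    · refine ⟨c.2 r + 1, fun n => ?_⟩
      cases n with
      | zero => simp [hm0 r e2]
      | succ n =>
        rw [m2 e2 n, g3 r hr n]
        omega
    · exact ⟨c.2 r, fun n => by rw [m3 e1 e2 n, g3 r hr n]⟩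
  obtain ⟨c', hc'⟩ := this
  exact ⟨c', hc', (hc'.fwd H hv hu h9 hS h1).uniq (H.sta u hu) h⟩

/-! ### The invariant -/

/-- `c` and the initial configuration have a common future -/
def Tl (P : List Ins) (x : ℕ) (c : ℕ × (ℕ → ℕ)) : Prop :=
  ∃ i j, (step P)^[i] (0, sx x 0 0) = (step P)^[j] c

theorem Tl.fwd {c : ℕ × (ℕ → ℕ)} (h : Tl P x c) : Tl P x (step P c) := by
  obtain ⟨i, j, h⟩ := h
  refine ⟨i + 1, j, ?_⟩
  rw [Function.iterate_succ_apply', h, ← Function.iterate_succ_apply, Function.iterate_succ_apply']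

theorem Tl.bwd {c : ℕ × (ℕ → ℕ)} (h : Tl P x (step P c)) : Tl P x c := by
  obtain ⟨i, j, h⟩ := h
  exact ⟨i, j + 1, by rw [h, Function.iterate_succ_apply]⟩

theorem inv_step (H : Hyp M P K x w) {v u : W} (hv : ReflTransGen (Esp M) w v)
    (hvu : Esp M v u) (h : ∃ c, Conf M K v c ∧ Tl P x c) : ∃ c, Conf M K u c ∧ Tl P x c := by
  have hu : ReflTransGen (Esp M) w u := hv.tail hvu
  obtain ⟨c, hc, ht⟩ := h
  obtain ⟨hsv, hsu, h0 | h1⟩ := hvu
  · exact ⟨c, hc.zero (H.sta v hv) hsv hsu h0, ht⟩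
  have h1' : (M.R 1).r u v := (M.R 1).iseqv.symm h1
  rcases hsv with v1 | v9
  · rcases hsu with u1 | u9
    · rcases (H.sta v hv).sS v1 with v17 | ⟨z, hz, z9⟩
      · have u17 := (H.sta v hv).ini1 v17 u h1 u1
        have a := Conf.init H hv v1 v17
        have b := Conf.init H hu u1 u17
        rw [a.uniq (H.sta v hv) hc] at b
        exact ⟨c, b, ht⟩
      · have hzr : ReflTransGen (Esp M) w z := hv.tail ⟨Or.inl v1, Or.inr z9, Or.inr hz⟩
        obtain ⟨c1, hc1, e⟩ := hc.bwd H hzr hv z9 v1 ((M.R 1).iseqv.symm hz)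
        have := hc1.fwd H hzr hu z9 u1 ((M.R 1).iseqv.trans ((M.R 1).iseqv.symm hz) h1)
        rw [e] at this
        exact ⟨c, this, ht⟩
    · obtain ⟨c1, hc1, e⟩ := hc.bwd H hu hv u9 v1 h1'
      exact ⟨c1, hc1, Tl.bwd (e ▸ ht)⟩
  · rcases hsu with u1 | u9
    · exact ⟨step P c, hc.fwd H hv hu v9 u1 h1, ht.fwd⟩
    · obtain ⟨z, hz, z1⟩ := (H.sta v hv).sP v9
      have hzr : ReflTransGen (Esp M) w z := hv.tail ⟨Or.inr v9, Or.inl z1, Or.inr hz⟩
      have hzc := hc.fwd H hv hzr v9 z1 hz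
      obtain ⟨c1, hc1, e⟩ := hzc.bwd H hu hzr u9 z1 ((M.R 1).iseqv.trans h1' hz)
      exact ⟨c1, hc1, Tl.bwd (e ▸ ht.fwd)⟩

theorem hyp_of (ok : Ok P K) (h : sat M (phi P K x) Set.univ w) :
    Hyp M P K x w ∧ w ∈ M.V 1 ∧ w ∈ M.V 17 ∧
      ∃ v, ReflTransGen (Esp M) w v ∧ ∃ q < K, ¬ q < P.length ∧ v ∈ M.V (8 * q) := by
  rw [phi, sat_conj] at h
  simp only [List.forall_mem_cons] at h
  obtain ⟨h1, h2, h3, h4, h5, h6, -⟩ := h
  have hw : Sp M w := Or.inl h1
  have hs : ∀ v, ReflTransGen (Esp M) w v → Sta M P K v := fun v hv =>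
    sta_of ((sat_C _ _ _ _).1 h5 v (reach0 hv))
  refine ⟨⟨ok, hw, hs, fun v hv n => ?_, fun v hv v1 v17 => ?_⟩, h1, h2, ?_⟩
  · have := h3 n (Snd.inD hw hs .refl n)
    exact (sat_C _ _ _ _).1 this v (reach hw hs hv n)
  · have := (sat_C _ _ _ _).1 h6 v (reach0 hv)
    rw [sat_imp] at this
    exact this ⟨v1, v17⟩
  · have := h4 ((sat_sp _ _ _).2 hw)
    simp only [sat] at this
    by_contra hcon
    apply this
    have key : ∀ v, TransGen (fun x y => x ∈ {v | v ∈ (Set.univ : Set W) ∧ sat M sp Set.univ v} ∧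
        y ∈ {v | v ∈ (Set.univ : Set W) ∧ sat M sp Set.univ v} ∧
        ((M.R 0).r x y ∨ (M.R 1).r x y)) w v → ReflTransGen (Esp M) w v := by
      intro v hv
      induction hv with
      | single h => exact .single ⟨(sat_sp _ _ _).1 h.1.2, (sat_sp _ _ _).1 h.2.1.2, h.2.2⟩
      | tail _ h ih => exact ih.tail ⟨(sat_sp _ _ _).1 h.1.2, (sat_sp _ _ _).1 h.2.1.2, h.2.2⟩
    refine (sat_C _ _ _ _).2 fun v hv hh => hcon ⟨v, key v hv, ?_⟩
    rw [halt, sat_disj] at hh
    obtain ⟨φ, hφ, hh⟩ := hh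
    obtain ⟨q, hq, rfl⟩ := List.mem_map.1 hφ
    refine ⟨q, List.mem_range.1 hq, ?_⟩
    split_ifs at hh with hqP
    · exact absurd (sat_top _ _ _) hh
    · exact ⟨hqP, hh⟩

end Snd

theorem t_SND : S_SND := by
  intro k K P x ok W M w h
  obtain ⟨H, w1, w17, v, hv, q, hqK, hqP, hvq⟩ := Snd.hyp_of ok h
  have key : ∃ c, Snd.Conf M K v c ∧ Snd.Tl P x c := by
    clear hvq
    induction hv with
    | refl => exact ⟨_, Snd.Conf.init H .refl w1 w17, 0, 0, rfl⟩
    | tail hb hbc ih => exact Snd.inv_step H hb hbc ih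
  obtain ⟨c, ⟨g1, g2, -⟩, i, j, e⟩ := key
  have e1 : c.1 = q := (H.sta v hv).excl _ g1 _ hqK g2 hvq
  have e2 : P[c.1]? = none := by
    rw [e1]
    exact List.getElem?_eq_none (by omega)
  have e3 : Pool.Agent.Helper707.Flat.step P c = c := by
    simp only [Pool.Agent.Helper707.Flat.step, e2]
  rw [Function.iterate_fixed e3] at e
  exact ⟨i, by rw [e]; exact e2⟩

end Pool.Agent.V5helper38.EP
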