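import Mathlib
import Pool.Agent.Helper707.Flat

/-!
# Project EP (MP_6a7b9a_lc): iterated public announcements over finite epistemic models

THEOREM. With at least two agents the set of the finitely valid formulas is `Π⁰₁`-hard (so `Π⁰₁`-complete, in
particular undecidable).  With one agent a formula which is not finitely valid fails in a model with at most
`2 ^ (number of letters)` worlds.

Reduction. A run `c_0, c_1, …` of a register machine (`Helper707/Flat.lean`: instructions `inc`, `dec`, `jmp`, registers
`r < K`) is a model: for each time `t` two spine worlds `s_t`, `s'_t`, and for each register `r` a chain of `σ_t r` cells.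
Agent 0 does not distinguish `s_t`, `s'_t` and the first cells of the chains of `t`, and the cells `2j`, `2j+1` of a chain;
agent 1 does not distinguish `s'_t` and `s_(t+1)`, and the cells `2j-1`, `2j` of a chain.  Cells are labelled by their
number modulo 4, so that one sees the direction.  The announcement `alpha` (a cell has a next cell) deletes the last
cells of all chains; so after `n` announcements `s_t` sees a cell of register `r` iff `n < σ_t r`, and adjacent
configurations can be compared in all stages: `[(!alpha)^*] C (…)`.  In an arbitrary finite model nothing about the chains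
is needed: the value of `r` at a spine world `v` is the first stage in which `v` does not see a cell `cell r 1`.
-/

set_option autoImplicit false

namespace Pool.Agent.V5helper38.EP

open Pool.Agent.Helper707.Flat (Ins step sx)

/-! ## The logic -/

/-- Formulas: `know a φ` is `K_a φ`, `common G φ` is `C_G φ` (`G` nonempty), `ann φ ψ` is `[!φ]ψ`, `iter φ ψ` is
`[(!φ)^*]ψ`. -/
inductive Fm (A : Type) : Type
  | atom (p : ℕ) : Fm A
  | neg (φ : Fm A) : Fm A
  | and (φ ψ : Fm A) : Fm A
  | know (a : A) (φ : Fm A) : Fm A
  | common (G : Finset A) (hG : G.Nonempty) (φ : Fm A) : Fm A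
  | ann (φ ψ : Fm A) : Fm A
  | iter (φ ψ : Fm A) : Fm A

/-- Epistemic models with the set of worlds `W`. -/
structure Model (A W : Type) where
  R : A → Setoid W
  V : ℕ → Set W

/-- `sat M φ D w`: the formula `φ` is true at the world `w` of the submodel of `M` on the set `D`. -/
def sat {A W : Type} (M : Model A W) : Fm A → Set W → W → Prop
  | .atom p, _, w => w ∈ M.V p
  | .neg φ, D, w => ¬ sat M φ D w
  | .and φ ψ, D, w => sat M φ D w ∧ sat M ψ D w
  | .know a φ, D, w => ∀ v ∈ D, (M.R a).r w v → sat M φ D v
  | .common G _ φ, D, w => ∀ v, Relation.TransGen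
      (fun x y => x ∈ D ∧ y ∈ D ∧ ∃ a ∈ G, (M.R a).r x y) w v → sat M φ D v
  | .ann φ ψ, D, w => sat M φ D w → sat M ψ {v | v ∈ D ∧ sat M φ D v} w
  | .iter φ ψ, D, w => ∀ n : ℕ, w ∈ (fun E : Set W => {v | v ∈ E ∧ sat M φ E v})^[n] D →
      sat M ψ ((fun E : Set W => {v | v ∈ E ∧ sat M φ E v})^[n] D) w

/-- The formula is true at every world of every finite epistemic model. -/
def Valid {A : Type} (φ : Fm A) : Prop :=
  ∀ (W : Type) [Finite W] (M : Model A W) (w : W), sat M φ Set.univ w

/-- Polish notation. -/
def code {k : ℕ} : Fm (Fin k) → List ℕ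
  | .atom p => [0, p]
  | .neg φ => 1 :: code φ
  | .and φ ψ => 2 :: (code φ ++ code ψ)
  | .know a φ => 3 :: a.1 :: code φ
  | .common G _ φ => 4 :: (∑ a ∈ G, 2 ^ a.1) :: code φ
  | .ann φ ψ => 5 :: (code φ ++ code ψ)
  | .iter φ ψ => 6 :: (code φ ++ code ψ)

/-! ## Abbreviations -/

section
variable {A : Type}

def imp (φ ψ : Fm A) : Fm A := .neg (.and φ (.neg ψ))
def or' (φ ψ : Fm A) : Fm A := .neg (.and (.neg φ) (.neg ψ))
def dia (a : A) (φ : Fm A) : Fm A := .neg (.know a (.neg φ))
def top' : Fm A := .neg (.and (.atom 0) (.neg (.atom 0)))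
/-- conjunction of a list -/
def conj : List (Fm A) → Fm A
  | [] => top'
  | φ :: l => .and φ (conj l)
/-- disjunction of a list -/
def disj : List (Fm A) → Fm A
  | [] => .neg top'
  | φ :: l => or' φ (disj l)

/-- letters -/
def st (q : ℕ) : Fm A := .atom (8 * q)
def zr (r : ℕ) : Fm A := .atom (8 * r + 2)
def cell (r i : ℕ) : Fm A := .atom (8 * r + 4 + i % 4)
def sS : Fm A := .atom 1
def sP : Fm A := .atom 9
def ini : Fm A := .atom 17
/-- spine worlds -/
def sp : Fm A := or' sS sP
end

section
variable {k : ℕ}

/-- the agent who does not distinguish the cells `i`, `i + 1` of a chain -/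
def ag (i : ℕ) : Fin (k + 2) := if i % 2 = 1 then 1 else 0

/-- every cell has a next cell -/
def alpha (K : ℕ) : Fm (Fin (k + 2)) :=
  conj ((List.range K).flatMap fun r => (List.range 4).map fun i =>
    imp (cell r i) (dia (ag i) (cell r (i + 1))))

/-- one sees a first cell of the register `r` -/
def see (r : ℕ) : Fm (Fin (k + 2)) := dia 0 (cell r 1)

/-- the value of the register `r` is `n` -/
def val (K r : ℕ) : ℕ → Fm (Fin (k + 2))
  | 0 => .neg (see r)
  | n + 1 => .and (see r) (.ann (alpha K) (val K r n))

/-- both agents 0, 1 -/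
def C (φ : Fm (Fin (k + 2))) : Fm (Fin (k + 2)) := .common {0, 1} (by simp) φ

/-- the next configuration has the same value, a value larger (smaller) by one -/
def same (r : ℕ) : Fm (Fin (k + 2)) :=
  .and (imp (see r) (.know 1 (imp sS (see r)))) (imp (.neg (see r)) (.know 1 (imp sS (.neg (see r)))))
def up (K r : ℕ) : Fm (Fin (k + 2)) :=
  .and (imp (see r) (.ann (alpha K) (.know 1 (imp sS (see r)))))
    (imp (.neg (see r)) (.ann (alpha K) (.know 1 (imp sS (.neg (see r))))))
def dn (K r : ℕ) : Fm (Fin (k + 2)) :=
  .and (imp (.ann (alpha K) (see r)) (.know 1 (imp sS (see r))))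
    (imp (.neg (.ann (alpha K) (see r))) (.know 1 (imp sS (.neg (see r)))))

/-- change of the register `r` by the move `m` (`none`: no change, `some (r', b)`: `r'` is increased if `b`,
decreased otherwise) -/
def mv (K : ℕ) (m : Option (ℕ × Bool)) (r : ℕ) : Fm (Fin (k + 2)) :=
  if m = some (r, true) then up K r else if m = some (r, false) then dn K r else same r

/-- the cases of an instruction in the state `q`: condition, next state, move -/
def cases' (q : ℕ) : Option Ins → List (Fm (Fin (k + 2)) × ℕ × Option (ℕ × Bool))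
  | some (.inc r t) => [(st q, t, some (r, true))]
  | some (.dec r t t') => [(.and (st q) (zr r), t', none), (.and (st q) (.neg (zr r)), t, some (r, false))]
  | some (.jmp t) => [(st q, t, none)]
  | none => []

/-- all cases -/
def allc (P : List Ins) : List (Fm (Fin (k + 2)) × ℕ × Option (ℕ × Bool)) :=
  (List.range P.length).flatMap fun q => cases' q P[q]?

/-- static conditions of a case -/
def stc (c : Fm (Fin (k + 2)) × ℕ × Option (ℕ × Bool)) : Fm (Fin (k + 2)) :=
  .and (imp (.and sP c.1) (.know 1 (imp sS (st c.2.1))))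
    (match c.2.2 with
      | some (r, true) => imp (.and sP c.1) (.know 1 (imp sS (see r)))
      | _ => top')

/-- dynamic conditions of a case -/
def dyc (K : ℕ) (c : Fm (Fin (k + 2)) × ℕ × Option (ℕ × Bool)) : Fm (Fin (k + 2)) :=
  imp (.and sP c.1) (conj ((List.range K).map (mv K c.2.2)))

/-- dynamic conditions -/
def dyn (P : List Ins) (K : ℕ) : Fm (Fin (k + 2)) := conj ((allc P).map (dyc K))

/-- static conditions which do not depend on the input -/
def sta (P : List Ins) (K : ℕ) : Fm (Fin (k + 2)) := conj
  [conj ((List.range K).flatMap fun q => (List.range K).map fun q' =>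
      if q = q' then top' else imp (st q) (.neg (st q'))),
    conj ((List.range K).flatMap fun r => (List.range 4).map fun i => imp sp (.neg (cell r i))),
    conj ((List.range K).map fun q => imp (.and sp (st q)) (.know 0 (imp sp (st q)))),
    imp sP (disj ((List.range P.length).map st)),
    imp sS (or' ini (dia 1 sP)), imp ini (.know 1 (imp sS ini)), imp sP (dia 1 sS),
    conj ((List.range K).map fun r =>
      imp sP (.and (imp (zr r) (.neg (see r))) (imp (.neg (zr r)) (see r)))),
    conj ((allc P).map stc),
    imp (.and sS ini) (st 0),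
    conj ((List.range K).map fun r => if r = 0 then top' else imp (.and sS ini) (val K r 0))]

/-- the final states -/
def halt (P : List Ins) (K : ℕ) : Fm (Fin (k + 2)) :=
  disj ((List.range K).map fun q => if q < P.length then .neg top' else st q)

/-- the formula for the program `P` and the input `x` -/
def phi (P : List Ins) (K x : ℕ) : Fm (Fin (k + 2)) :=
  conj [sS, ini, .iter (alpha K) (C (dyn P K)), .ann sp (.neg (C (.neg (halt P K)))), C (sta P K),
    C (imp (.and sS ini) (val K 0 x))]
end

/-! ## Machines -/

/-- all registers and states are less than `K` -/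
def bd (K : ℕ) : Ins → Prop
  | .inc r t => r < K ∧ t < K
  | .dec r t t' => r < K ∧ t < K ∧ t' < K
  | .jmp t => t < K

/-- the bound `K` is good for `P` -/
structure Ok (P : List Ins) (K : ℕ) : Prop where
  len : P.length < K
  ins : ∀ a ∈ P, bd K a

/-- the machine stops on input `x` -/
def Halts (P : List Ins) (x : ℕ) : Prop :=
  ∃ n, P[((step P)^[n] (0, sx x 0 0)).1]? = none

/-! ## Jobs -/

/-- SND: if the formula is true somewhere, the machine halts. -/
def S_SND : Prop := ∀ (k K : ℕ) (P : List Ins) (x : ℕ), Ok P K → ∀ (W : Type) (M : Model (Fin (k + 2)) W) (w : W),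
  sat M (phi P K x) Set.univ w → Halts P x

/-! ### The model of a run -/

/-- `sp t false` is `s_t`, `sp t true` is `s'_t`, `ce t r i` is the `i`-th cell of the register `r` at time `t` -/
inductive Wd
  | sp (t : ℕ) (b : Bool)
  | ce (t r i : ℕ)

/-- the worlds (`s t r` is the value of the register `r` at time `t`) -/
def Ex (T K : ℕ) (s : ℕ → ℕ → ℕ) : Wd → Prop
  | .sp t b => if b = true then t < T else t ≤ T
  | .ce t r i => t ≤ T ∧ r < K ∧ 1 ≤ i ∧ i ≤ s t r

/-- the classes of the agent 0 -/
def cl0 : Wd → ℕ × ℕ × ℕ × ℕ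
  | .sp t _ => (0, t, 0, 0)
  | .ce t r i => if i ≤ 1 then (0, t, 0, 0) else (1, t, r, i / 2)

/-- the classes of the agent 1 -/
def cl1 : Wd → ℕ × ℕ × ℕ × ℕ
  | .sp t b => (0, if b = true then t + 1 else t, 0, 0)
  | .ce t r i => (1, t, r, (i + 1) / 2)

/-- the letters which are true at a world (`q t` is the state at time `t`) -/
def ltr (q : ℕ → ℕ) (s : ℕ → ℕ → ℕ) (p : ℕ) : Wd → Prop
  | .sp t b => p = 8 * q t ∨ (p = 1 ∧ b = false) ∨ (p = 9 ∧ b = true) ∨ (p = 17 ∧ b = false ∧ t = 0) ∨
      ∃ r, p = 8 * r + 2 ∧ s t r = 0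
  | .ce _ r i => p = 8 * r + 4 + i % 4

/-- the model -/
def mdl (k T K : ℕ) (q : ℕ → ℕ) (s : ℕ → ℕ → ℕ) : Model (Fin (k + 2)) {v : Wd // Ex T K s v} where
  R a := if a = 0 then Setoid.ker (fun v => cl0 v.1) else if a = 1 then Setoid.ker (fun v => cl1 v.1) else ⊥
  V p := {v | ltr q s p v.1}

/-- the worlds after `n` announcements -/
def stg (T K n : ℕ) (s : ℕ → ℕ → ℕ) : Set {v : Wd // Ex T K s v} :=
  {v | match v.1 with
    | .sp _ _ => True
    | .ce t r i => i + n ≤ s t r}

/-- STG: there are finitely many worlds; `n` announcements of `alpha` delete the last `n` cells of each chain (induction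
on `n`: the spine worlds have no letters of cells; the cells in the class of the agent `ag i` of `ce t r i` are
`ce t r i`, `ce t r (i + 1)` (`i ≥ 1`; for `ag i = 0` one has `i ≥ 2`), and `cell r (i + 1)` is not true at `ce t r i`); what
one sees after `n` announcements: first cells. -/
def S_STG : Prop := ∀ (k T K : ℕ) (q : ℕ → ℕ) (s : ℕ → ℕ → ℕ),
  Finite {v : Wd // Ex T K s v} ∧
  (∀ n : ℕ, (fun E : Set {v : Wd // Ex T K s v} => {v | v ∈ E ∧ sat (mdl k T K q s) (alpha K) E v})^[n] Set.univ
    = stg T K n s) ∧
  (∀ n : ℕ, {v | v ∈ stg T K n s ∧ sat (mdl k T K q s) (alpha K) (stg T K n s) v} = stg T K (n + 1) s) ∧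
  ∀ (n r t : ℕ) (b : Bool) (h : Ex T K s (.sp t b)), r < K →
    (sat (mdl k T K q s) (see r) (stg T K n s) ⟨.sp t b, h⟩ ↔ n < s t r)

/-- CPL (uses STG): the model of a halting run satisfies the formula at `s_0`. Let `T` be the least number with
`P[(c_T).1]? = none`, `c_t = (step P)^[t] (0, sx x 0 0)`, `q t = c_t.1`, `s t r = c_t.2 r`.  All conditions under `C` hold at
all worlds of the stage (`cell` worlds: trivially, they have no letters `sS`, `sP`, `st`), and `sp T false` can be reached in
the set of the spine worlds: `s_t ~_0 s'_t ~_1 s_(t+1)`.  The class of `s'_t` for the agent 1 is `{s'_t, s_(t+1)}`.  One has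
`q t < K` for all `t`. -/
def S_CPL : Prop := ∀ (k K : ℕ) (P : List Ins) (x : ℕ), Ok P K → Halts P x →
  ∃ (W : Type) (_ : Finite W) (M : Model (Fin (k + 2)) W) (w : W), sat M (phi P K x) Set.univ w

/-- BASE: every recursively enumerable set is the halting set of a program.  `p x ↔ (c.eval x).Dom` for a code
`c : Nat.Partrec.Code`, `↔ ∃ n, (evaln n c x).isSome` (`Nat.Partrec.Code.evaln_complete`,
`Nat.Partrec.Code.primrec_evaln`), so `∃ n, f (n, x) = 0` for a primitive recursive `f`; then `search`, `halting_iff`
(`Helper707/Flat.lean`), `P = code (prog body) 0`; the state is a number `< P.length` or equal to it (for `← ` use that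
`P[q]? = none` and that all targets in `P` are `≤ P.length`: induction on `Cmd`; see also
`H593R3/FBC/Prog.lean`). `K` = any upper bound. -/
def S_BASE : Prop := ∀ p : ℕ → Prop, REPred p → ∃ (P : List Ins) (K : ℕ), Ok P K ∧ ∀ x, p x ↔ Halts P x

/-- INJ: unique readability: `code φ ++ s = code ψ ++ t → φ = ψ ∧ s = t` by induction; `Finset (Fin k)` from its binary
number (`Finset.geomSum_injective`, `Finset.sum_two_pow_...`, `Finset.map Fin.valEmbedding`). -/
def S_INJ : Prop := ∀ k : ℕ, Function.Injective (code (k := k))

/-- CMP: the code of the formula is a computable function of the input. `code (phi P K x)` is `a ++ g x ++ b` with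
`g x = code (val K 0 x)`, `g (x + 1) = 2 :: (code (see 0) ++ 5 :: (code (alpha K) ++ g x))`; `Primrec.nat_rec₁`,
`Primrec.list_append`. -/
def S_CMP : Prop := ∀ (k K : ℕ) (P : List Ins), Computable (fun x : ℕ => code (.neg (phi (k := k) P K x)))

/-- the letters of a formula -/
def letters {A : Type} : Fm A → Finset ℕ
  | .atom p => {p}
  | .neg φ => letters φ
  | .and φ ψ => letters φ ∪ letters ψ
  | .know _ φ => letters φ
  | .common _ _ φ => letters φ
  | .ann φ ψ => letters φ ∪ letters ψ
  | .iter φ ψ => letters φ ∪ letters ψ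

/-- ONE: one agent, small models.  Let `φ` fail at `w₀` in `M` (any model).  Restrict to the class of `w₀` for the only
agent (truth at the worlds of a class does not depend on the other classes) and identify worlds with the same letters in
`L = letters φ`: `f v = {p ∈ L | v ∈ V p}`.  Let `W' = {s : Finset ℕ // s ∈ L.powerset}` with the two classes
`{f v | v ~ w₀}` and the rest (or: all worlds in one class and a general `D'`, then a subtype).  Claim, for all `ψ` with
letters in `L`, all `D' ⊆ {f v | v ~ w₀}`, `D = {v | v ~ w₀ ∧ f v ∈ D'}`, `v ∈ D`: `sat M ψ D v ↔ sat M' ψ D' (f v)`.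
To start and to end: for `D ∋ w₀`, `sat M φ D w₀ ↔ sat M φ (D ∩ [w₀]) w₀` (for any model over `Fin 1`). `common G` is the same
as `know 0` (the transitive closure of a relation which is an equivalence relation on `D`). -/
def S_ONE : Prop := ∀ (φ : Fm (Fin 1)) (W₀ : Type) (M₀ : Model (Fin 1) W₀) (w₀ : W₀), ¬ sat M₀ φ Set.univ w₀ →
  ∃ (W : Type) (_ : Finite W) (M : Model (Fin 1) W) (w : W),
    Nat.card W ≤ 2 ^ (letters φ).card ∧ ¬ sat M φ Set.univ w

end Pool.Agent.V5helper38.EP
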